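import Pool.Agent.Helper81.LT.Mod

/-!
# Countability of the formulas in a countable context
-/

open FirstOrder Language

noncomputable section
namespace Pool.Agent.Helper6.LT

open Pool.Agent.Helper81.LT

theorem cnt : CNT := by
  intro α hα
  have hf : ∀ n, Countable (LA.Functions n) := fun n => by
    refine Function.Injective.countable (β := ℕ) (f := fun f : AFun n => match f with
      | AFun.zero => 0
      | AFun.one => 1
      | AFun.add => 2
      | AFun.mul => 3) ?_
    intro a b h
    cases a <;> cases b <;> first | rfl | (simp at h)
  have hr : ∀ n, Countable (LA.Relations n) := fun n => by
    refine Function.Injective.countable (β := ℕ) (f := fun f : ARel n => match f with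
      | ARel.lt => 0) ?_
    intro a b h
    cases a; cases b; rfl
  have : Countable LA.Symbols := by
    unfold Language.Symbols
    infer_instance
  infer_instance

end Pool.Agent.Helper6.LT
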