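import Pool.Agent.Helper81.LT.Comb

/-! A counting lemma. -/

namespace Pool.Agent.Helper6.LT

open Pool.Agent.Helper81.LT Finset

theorem count : COUNT := by
  classical
  intro r Bad h
  by_contra hc
  push Not at hc
  have hB : ∀ l, (univ.filter (Bad l)).card ≤ (r + 1) ^ (r - 1) := by
    intro l
    have h1 : (univ.filter (Bad l)).card ≤
        (univ : Finset ({i // i ≠ l} → Fin (r + 1))).card := by
      refine Finset.card_le_card_of_injOn (fun g i => g i.1) (fun _ _ => mem_univ _) ?_
      intro g hg g' hg' e
      have hg1 : Bad l g := (mem_filter.mp hg).2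
      have hg1' : Bad l g' := (mem_filter.mp hg').2
      have hoff : ∀ i, i ≠ l → g i = g' i := fun i hi => congrFun e ⟨i, hi⟩
      have e1 : Function.update g l (g l) = g := Function.update_eq_self l g
      have e2 : Function.update g l (g' l) = g' := by
        funext i
        by_cases hi : i = l
        · subst hi; simp
        · rw [Function.update_of_ne hi, hoff i hi]
      have e3 := h l g (g l) (g' l) (by rw [e1]; exact hg1) (by rw [e2]; exact hg1')
      rw [← e1, e3, e2]
    have h2 : (univ : Finset ({i // i ≠ l} → Fin (r + 1))).card = (r + 1) ^ (r - 1) := by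
      rw [Finset.card_univ, Fintype.card_fun, Fintype.card_fin, Fintype.card_subtype_compl,
        Fintype.card_fin, Fintype.card_subtype_eq]
    rw [h2] at h1
    exact h1
  have hcov : (univ : Finset (Fin r → Fin (r + 1))) ⊆
      univ.biUnion (fun l => univ.filter (Bad l)) := by
    intro g _
    obtain ⟨l, hl⟩ := hc g
    exact mem_biUnion.mpr ⟨l, mem_univ _, mem_filter.mpr ⟨mem_univ _, hl⟩⟩
  have h3 := (card_le_card hcov).trans (card_biUnion_le.trans (sum_le_sum fun l _ => hB l))
  rw [sum_const, card_univ, card_univ, Fintype.card_fun, Fintype.card_fin, Fintype.card_fin,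
    smul_eq_mul] at h3
  rcases r with _ | m
  · simp at h3
  · rw [Nat.add_sub_cancel, pow_succ, mul_comm] at h3
    have h4 : 0 < (m + 1 + 1) ^ m := by positivity
    have := Nat.le_of_mul_le_mul_right h3 h4
    omega

end Pool.Agent.Helper6.LT
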