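import Pool.Agent.Helper81.LT.Inc

/-!
# `PP` is defined by an upward preserved formula
-/

namespace Pool.Agent.Helper6.LT

open Pool.Agent.Helper81.LT

theorem sgp (h : PRR) (hq : QPR) (he : QEQ) : SGP := by
  obtain ⟨φ, hu, hφ⟩ := h QQ hq
  exact ⟨φ, hu, fun v => (hφ v).trans (he _ _).symm⟩

end Pool.Agent.Helper6.LT
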